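import Pool.Agent.Helper48.AA.CO
import Pool.Agent.Helper48.AA.FIN
import Pool.Agent.Helper48.AA.RLA
import Pool.Agent.Helper13.AA.MB1
import Pool.Agent.Helper14.AA.DG
import Pool.Agent.Helper15.AA.GP
import Pool.Agent.Helper16.AA.RGA
import Pool.Agent.Helper24.AA.CC
import Pool.Agent.Helper25.AA.MA
import Pool.Agent.Helper33.AA.ML
import Pool.Agent.Helper67.AA.MB2
import Pool.Agent.Helper78.AA.RGB
import Pool.Agent.Helper90.AA.LS
import Pool.Agent.Helper93.AA.RLB
import Pool.Agent.Helper94.AA.WN

/-!
# For almost all n many numbers C(2k,k) + p_(n-k) without prime factors up to N^c, in short ranges of k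

Problem MP_6c0525_nt: is it true that every `n > 2` is of the form `k + m`, `0 < k < m`, such that `C(2k,k) + p_m` is prime?

## The theorem

There are `c, C > 0` such that for all integers `N ≥ 3` and `K` with `exp (C (log log N)^2) ≤ K ≤ N^(1/2)` all but at most
`N exp (-c (log K)^(1/2))` of the `n ≤ N` have the following property: for at least `c K log K/log N` of the `k` with
`K/2 < k ≤ K` we have `2k < n` and all prime factors of `C(2k,k) + p_(n-k)` are greater than `N^c`.

* `K = N^(1/2)`: all but `N exp (-c (log N)^(1/2))` of the `n ≤ N` have a positive proportion of such `k ≤ N^(1/2)`.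
* `K = exp (C (log log N)^2)`: for almost all `n` there is such a `k ≤ exp (C (log log n)^2)`, the exceptional set is `O(N/(log N)^A)`
  for every `A` (increase `C`).
* The order `K log K/log N` is the expected one: the probability that `C(2k,k) + p` has no prime factor up to `N^c` is of
  order `log K/log N`, because `C(2k,k)` is divisible by most primes up to `K`.

## Proof

Put `h_k = C(2k,k)`, `w = [exp ((log K)^(1/2)/40)]`, `Q = w^20`, `z` a small power of `N`.  By the theorem of Lucas almost all `k` are
such that all odd primes up to `Q` divide `h_k`; for these `k` and a prime `x > z` the number `x + h_k` has no prime factor up to `z` if it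
is not divisible by the primes `q` of `(Q, z]` with `q ∤ h_k`.  Lower bound sieve weights for these `q` give functions
`F_k(x) = ∑ λ_d (1[d ∣ x + h_k] - 1/d) ≤ 1[x + h_k good] - V_k`, with `V_k ≥ c log K/log N` for most `k`.  Four of these
functions, with different shifts, have the mean value `0` up to the contribution of the primes `q > Q` which divide the difference of
two shifts; for a prime `q` the numbers of solutions `k ≤ K` of `h_k ≡ a` and of `h_(k+j) - h_k ≡ g` modulo `q`, `q ∤ h_k h_(k+j)`, are
`O(K/w^6)` (Lucas; roots of polynomials modulo `q`).  So the sums `∑_k F_(k+j)(x) F_k(x + g)` are small in mean square over all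
pairs of integers `x`, `x + g`, `g ≤ w^2`, for every `j < w`.  For the primes `p_M, .., p_(M+w-1)` of a window without large gaps the
second moment of `∑_i F_(t-i)(p_(M+i))` over `t` is estimated by the sum over all pairs `x, x + g` and over all `j < w`; the loss is a
power of `w log N` which is smaller than the gain.  Hence for most `n` most of the windows `t - w < k ≤ t` contain good `k`.
-/

set_option autoImplicit false

namespace Pool.Agent.Results.MP_6c0525_nt.AlmostAllN

open Finset

open Pool.Agent.Helper48.AA in
theorem fin : StmtFIN := by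
  have hML := Pool.Agent.Helper33.AA.gML Pool.Agent.Helper25.AA.gMA Pool.Agent.Helper13.AA.gMB1
    Pool.Agent.Helper90.AA.gLS gLZ
  have hDG := Pool.Agent.Helper14.AA.gDG Pool.Agent.Helper67.AA.gMB2 Pool.Agent.Helper90.AA.gLS gLZ
  have hCC := Pool.Agent.Helper24.AA.gCC hML (Pool.Agent.Helper16.AA.gRGA gRLA)
    (Pool.Agent.Helper78.AA.gRGB Pool.Agent.Helper93.AA.gRLB)
  exact gFIN (gCO hDG hCC Pool.Agent.Helper94.AA.gWN Pool.Agent.Helper15.AA.gGP)

open scoped Classical in
theorem result : ∃ c C : ℝ, 0 < c ∧ 0 < C ∧ ∀ N K : ℕ, 3 ≤ N →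
    Real.exp (C * Real.log (Real.log N) ^ 2) ≤ K → K ^ 2 ≤ N →
    ((((Icc 1 N).filter (fun n => ((((Ioc (K / 2) K).filter (fun k => 2 * k < n ∧
        ∀ q : ℕ, q.Prime → q ∣ Nat.centralBinom k + Nat.nth Nat.Prime (n - k - 1) →
          (N : ℝ) ^ c < q)).card : ℕ) : ℝ)
        < c * (K * (Real.log K / Real.log N)))).card : ℕ) : ℝ)
      ≤ N * Real.exp (-(c * √(Real.log K))) := fin

end Pool.Agent.Results.MP_6c0525_nt.AlmostAllN
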