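import Pool.Agent.Helper10.CB.H3

/-!
# Many n are sums k + m such that C(2k,k) + p_m is almost prime, with k at most log n / log log n

Problem MP_6c0525_nt: is it true that every `n > 2` is of the form `k + m`, `0 < k < m`, such that `C(2k,k) + p_m` is prime?

## The theorem

There are `r`, `δ > 0` and `c > 0` such that for all large `N` at least `c N (log log N / log N)^(1/2)` of the `n ≤ N` are of the form
`n = k + m`, `0 < k < m`, `k ≤ log N / log log N`, such that `C(2k,k) + p_m` has at most `r` prime factors (with multiplicity) and no
prime factor up to `N^δ`.  (One fixed `k` gives only about `N / log N` of the `n`; the range of the `k` is of the smallest possible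
order for an almost prime for almost all `n`, by the theorem `RightScale`.)

## Proof

For the primes `p` in `(2x, 32x]` let `A_p` be the set of the `k ≤ K₂ = [log x / (2 log log x)]` such that `p + C(2k,k)` has no prime factor
up to `x^(1/E)`.  The first moment of `|A_p|` is `≫ x/log x` (fundamental lemma, a mean value theorem of the type of Bombieri and
Vinogradov, and averages of `∏ (1 + 1/q)` over the prime factors `q` of `C(2k,k)`), the second moment is `≪ x/log x` (sieve of dimension
three).  So the contribution of few primes is small; this holds for the primes which are followed by fewer than `K` primes in an interval of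
the length `B = A K log x`, where `K = [(log x / log log x)^(1/2)]` and `A` is a large constant, since these are at most
`33 x / (A log x)` primes.  Some block of `K` consecutive values of `k` contains the average number of pairs `(p, k)`.  If two pairs
`(p_m, k)`, `(p_m', k')` of the block give the same `n = m + k = m' + k'` and `m < m'`, then `m' - m = k - k' < K`, so
`p_m' - p_m ≤ B`: the number of these pairs of pairs is estimated by a sieve of dimension four for `p, p + d, p + C(2k,k), p + d + C(2k',k')`
and the sum over `d ≤ B`; it is at most a constant times the number of pairs.  The inequality of Cauchy and Schwarz gives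
`≫ x (log log x)^(1/2) / (log x)^(3/2)` different `n`, and `x ≍ N log N`.
-/

set_option autoImplicit false

namespace Pool.Agent.Results.MP_6c0525_nt.ManyAlmostPrimes

open Finset

open scoped Classical in
theorem result : ∃ (r : ℕ) (δ c : ℝ) (N0 : ℕ), 0 < δ ∧ 0 < c ∧ ∀ N : ℕ, N0 ≤ N →
    c * N * √(Real.log (Real.log N) / Real.log N) ≤
      ((((Icc 1 N).filter (fun n => ∃ k m : ℕ, 0 < k ∧ k < m ∧ k + m = n ∧
        (k : ℝ) ≤ Real.log N / Real.log (Real.log N) ∧
        (Nat.centralBinom k + Nat.nth Nat.Prime (m - 1)).primeFactorsList.length ≤ r ∧
        ∀ q : ℕ, q.Prime → q ∣ Nat.centralBinom k + Nat.nth Nat.Prime (m - 1) →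
          (N : ℝ) ^ δ < q)).card : ℕ) : ℝ) := by
  obtain ⟨r, δ, c, N0, hδ, hc, h⟩ := Pool.Agent.Helper10.CB.h3
  refine ⟨r, δ, c, N0, hδ, hc, fun N hN => ?_⟩
  refine (h N hN).1.trans (le_of_eq ?_)
  congr 2
  ext n
  simp only [mem_filter, mem_Icc]
  constructor
  · rintro ⟨g1, k, g2, g3, g4, g5, g6⟩
    exact ⟨g1, k, n - k, g2, by omega, by omega, g4, g5, g6⟩
  · rintro ⟨g1, k, m, g2, g3, g4, g5, g6, g7⟩
    have e : m = n - k := by omega
    subst e
    exact ⟨g1, k, g2, by omega, g5, g6, g7⟩

end Pool.Agent.Results.MP_6c0525_nt.ManyAlmostPrimes
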