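import Pool.Agent.Helper10.CB.HL

/-!
# The order of magnitude of the least k: the scale log n / log log n

Problem MP_6c0525_nt: is it true that every `n > 2` is of the form `k + m`, `0 < k < m`, such that `C(2k,k) + p_m` is prime?

## The theorem

Consider the representations `n = k + m`, `0 < k < m`, `k ≤ θ log N / log log N`, of the `n ≤ N`.

(i) For every `δ > 0` there is a `C` such that for all `N ≥ 3` and `0 < θ ≤ 1` the number of pairs `(n, k)` for which
`C(2k,k) + p_m` is prime, or at least has no prime factor up to `N^δ`, is at most `C θ N`; and for all `θ > 0` at most `C θ N` of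
the `n ≤ N` have such a representation.  So if `ε(n) → 0` then for almost all `n` the least `k` (if any) is greater than
`ε(n) log n / log log n`.

(ii) The order is correct for almost primes: there are `r`, `δ > 0`, `c > 0` such that for all large `N` and all
`log log N / (log N)^(1/2) ≤ θ ≤ 1` the number of pairs for which `C(2k,k) + p_m` has at most `r` prime factors (with multiplicity)
and no prime factor up to `N^δ` is at least `c θ N`.

The probability that `C(2k,k) + p_m` is prime should be about `C log k / log N` for `k` of this size, since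
`C(2k,k)` is divisible by almost all primes up to `k`; this is why the scale is `log n / log log n`, not `log n`.

## Proof

(i) An upper bound sieve of dimension two for the primes `p ≤ 24 N log N` such that `p + C(2k,k)` has no prime factor up to `z`, a small
power of `N`; `∏_(q | C(2k,k)) (1 + 1/q) ≤ C log k` because the prime factors of `C(2k,k)` are at most `2k`.
(ii) A lower bound for the number of primes `p` in `(2x, 32x]` such that `p + C(2k,k)` has no prime factor up to `z = x^(1/E)`, uniformly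
in `k`: the fundamental lemma and a mean value theorem of the type of Bombieri and Vinogradov with at most one exceptional prime
(proved here), and `∏_(q | C(2k,k)) (1 + 1/q) ≥ c log K exp (-T(k))`, where `T(k)` is the sum of `1/q` over the odd primes
`q ≤ 2K` which do not divide `C(2k,k)`; by the theorem of Lucas the average of `exp T(k)` over `k ≤ K` is bounded.
-/

set_option autoImplicit false

namespace Pool.Agent.Results.MP_6c0525_nt.RightScale

open Finset

open scoped Classical in
theorem result :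
    (∀ δ : ℝ, 0 < δ → ∃ C : ℝ, 0 < C ∧ ∀ N : ℕ, 3 ≤ N → ∀ θ : ℝ, 0 < θ →
      (θ ≤ 1 →
        ((((Icc 1 N ×ˢ Icc 1 N).filter (fun a => 2 * a.2 < a.1 ∧
          (a.2 : ℝ) ≤ θ * (Real.log N / Real.log (Real.log N)) ∧
          ((Nat.centralBinom a.2 + Nat.nth Nat.Prime (a.1 - a.2 - 1)).Prime ∨
            ∀ q : ℕ, q.Prime → q ∣ Nat.centralBinom a.2 + Nat.nth Nat.Prime (a.1 - a.2 - 1) →
              (N : ℝ) ^ δ < q))).card : ℕ) : ℝ) ≤ C * θ * N) ∧
      ((((Icc 1 N).filter (fun n => ∃ k m : ℕ, 0 < k ∧ k < m ∧ k + m = n ∧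
          (k : ℝ) ≤ θ * (Real.log N / Real.log (Real.log N)) ∧
          ((Nat.centralBinom k + Nat.nth Nat.Prime (m - 1)).Prime ∨
            ∀ q : ℕ, q.Prime → q ∣ Nat.centralBinom k + Nat.nth Nat.Prime (m - 1) →
              (N : ℝ) ^ δ < q))).card : ℕ) : ℝ) ≤ C * θ * N) ∧
    ∃ (r : ℕ) (δ c : ℝ) (N0 : ℕ), 0 < δ ∧ 0 < c ∧ ∀ N : ℕ, N0 ≤ N → ∀ θ : ℝ,
      Real.log (Real.log N) / √(Real.log N) ≤ θ → θ ≤ 1 →
      c * θ * N ≤ ((((Icc 1 N ×ˢ Icc 1 N).filter (fun a => 2 * a.2 < a.1 ∧
          (a.2 : ℝ) ≤ θ * (Real.log N / Real.log (Real.log N)) ∧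
          (Nat.centralBinom a.2 + Nat.nth Nat.Prime (a.1 - a.2 - 1)).primeFactorsList.length ≤ r ∧
          ∀ q : ℕ, q.Prime → q ∣ Nat.centralBinom a.2 + Nat.nth Nat.Prime (a.1 - a.2 - 1) →
              (N : ℝ) ^ δ < q)).card : ℕ) : ℝ) := by
  refine ⟨?_, ?_⟩
  · intro δ hδ
    obtain ⟨C, hC, h⟩ := Pool.Agent.Helper10.CB.h2 δ hδ
    refine ⟨C, by linarith, fun N hN θ hθ => ⟨fun hθ1 => ?_, ?_⟩⟩
    · refine le_trans (le_of_eq ?_) ((h N hN θ hθ).1 hθ1)
      congr 2
      ext a
      simp only [mem_filter, mem_product, mem_Icc]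
      constructor
      · rintro ⟨⟨g1, g2⟩, g3, g4, g5⟩
        exact ⟨⟨g1, g2⟩, by omega, g3, g4, g5⟩
      · rintro ⟨⟨g1, g2⟩, g3, g4, g5, g6⟩
        exact ⟨⟨g1, g2⟩, g4, g5, g6⟩
    · refine le_trans (le_of_eq ?_) (h N hN θ hθ).2
      congr 2
      ext n
      simp only [mem_filter, mem_Icc]
      constructor
      · rintro ⟨g1, k, m, g2, g3, g4, g5, g6⟩
        have e : m = n - k := by omega
        subst e
        exact ⟨g1, k, g2, by omega, g5, g6⟩
      · rintro ⟨g1, k, g2, g3, g4, g5⟩
        exact ⟨g1, k, n - k, g2, by omega, by omega, g4, g5⟩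
  · obtain ⟨r, δ, c, N0, hδ, hc, h⟩ := Pool.Agent.Helper10.CB.low_pairs
    refine ⟨r, δ, c, N0, hδ, hc, fun N hN θ h1 h2 => ?_⟩
    refine (h N hN θ h1 h2).trans (le_of_eq ?_)
    congr 2
    ext a
    simp only [mem_filter, mem_product, mem_Icc]
    constructor
    · rintro ⟨⟨g1, g2⟩, g3, g4, g5, g6, g7⟩
      exact ⟨⟨g1, g2⟩, g4, g5, g6, g7⟩
    · rintro ⟨⟨g1, g2⟩, g3, g4, g5, g6⟩
      exact ⟨⟨g1, g2⟩, by omega, g3, g4, g5, g6⟩

end Pool.Agent.Results.MP_6c0525_nt.RightScale
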