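import Pool.Agent.Helper10.CB.H1b

/-!
# For every n a sum C(2k,k) + p_m without prime factors up to exp (c (log n)^(1/2))

Problem MP_6c0525_nt: is it true that every `n > 2` is of the form `k + m`, `0 < k < m`, such that `C(2k,k) + p_m` is prime?

## The theorem

There is a constant `c > 0` such that for every `n ≥ 3` there are `0 < k < m`, `k + m = n`, such that all prime factors of
`C(2k,k) + p_m` are greater than `exp (c (log n)^(1/2))`.  All but at most `(1/c) n exp (-c (log n)^(1/2))` of the `k` in
`0 < k < n/2` have this property, for every `n`.  (A random integer of this size has no prime factor up to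
`exp (c (log n)^(1/2))` with the probability `≍ (log n)^(-1/2)` only; so there is no local obstruction to the conjecture in this
range, for any `n`.)

## Proof

Let `q ≤ y = exp (c (log n)^(1/2))` be a prime factor of `C(2k,k) + p_m`.  It is odd.  If `q` divides `C(2k,k)` then `q = p_m > n/2`,
which is impossible.  So `q` does not divide `C(2k,k)`, and by the theorem of Lucas all digits of `k` to the base `q` are at most
`(q-1)/2`.  The number of these `k < n/2` is at most `n (2/3)^D` if `q^D ≤ n/2`, and the sum over `q ≤ y` is at most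
`y n (2/3)^D` with `D ≍ log n / log y`.
-/

set_option autoImplicit false

namespace Pool.Agent.Results.MP_6c0525_nt.RoughForEveryN

open Finset

open scoped Classical in
theorem result : ∃ c : ℝ, 0 < c ∧ ∀ n : ℕ, 3 ≤ n →
    (∃ k m : ℕ, 0 < k ∧ k < m ∧ k + m = n ∧ ∀ q : ℕ, q.Prime →
      q ∣ Nat.centralBinom k + Nat.nth Nat.Prime (m - 1) → Real.exp (c * √(Real.log n)) < q) ∧
    ((((range n).filter (fun k => 0 < k ∧ 2 * k < n ∧ ∃ q : ℕ, q.Prime ∧
      (q : ℝ) ≤ Real.exp (c * √(Real.log n)) ∧
        q ∣ Nat.centralBinom k + Nat.nth Nat.Prime (n - k - 1))).card : ℕ) : ℝ)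
      ≤ 1 / c * n * Real.exp (-(c * √(Real.log n))) := by
  obtain ⟨c, hc, h⟩ := Pool.Agent.Helper10.CB.h1
  refine ⟨c, hc, fun n hn => ⟨(h n hn).1, ?_⟩⟩
  refine le_trans ?_ (h n hn).2
  have h1 : (range n).filter (fun k => 0 < k ∧ 2 * k < n ∧ ∃ q : ℕ, q.Prime ∧
      (q : ℝ) ≤ Real.exp (c * √(Real.log n)) ∧
        q ∣ Nat.centralBinom k + Nat.nth Nat.Prime (n - k - 1)) ⊆
      Pool.Agent.Helper10.CB.Bad n (Real.exp (c * √(Real.log n))) := by
    intro k hk
    rw [mem_filter] at hk
    exact Pool.Agent.Helper10.CB.mem_Bad.2 hk.2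
  exact_mod_cast card_le_card h1

end Pool.Agent.Results.MP_6c0525_nt.RoughForEveryN
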